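import Pool.Agent.Y670.RP.Rat
import Pool.Agent.Y125.RP.MPL

set_option autoImplicit false

/-!
# Prime-free neighbourhoods of Rankin's length around the values of all polynomials

Let `F` be a finite set of nonconstant real polynomials, of any degrees and with leading coefficients of
any signs, whose coefficients of positive degree are rational.  For every `ε > 0` there is `c > 0` such
that for all large `Y` every interval `(M, M + Y]` contains at least `Y ^ (1 - ε)` integers `n` such
that no prime lies within `c log Y log₂ Y log₄ Y / (log₃ Y)²` of any of the numbers `f(n)`, `f ∈ F`.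

Proof (`Pool.Agent.Y670.RP`). After clearing denominators the polynomials are integral.  Put
`y = δ log Y`.  The integer `n` lies in the class of `1` modulo the primes up to Rankin's limit `z` and in
the class of a fixed `ν` modulo the other primes up to `y`; the surviving shifts `u` (those for
which `f(n) + u` has no prime factor known so far) are `O(y / log y)` in number, with a small constant, by
the sieve for the linear polynomial `u` with exceptional primes (helper325 and helper807, after helper426).  For
each survivor the polynomial `f + u`, if it is not a monomial, has nonzero roots modulo more than `y`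
primes between `y` and a fixed power of `y` (by Chebyshev's method applied to the values of a
polynomial, helper125), so that every survivor can be given a prime of its own.  The monomials among the
`f + u` take values divisible by a further prime dividing `n`.
-/

namespace Pool.Agent.Results.MP_711652_nt.AllPolynomialValues

open Finset

/-- the length in Rankin's theorem on large gaps between primes -/
noncomputable def R (Y : ℝ) : ℝ :=
  Real.log Y * Real.log (Real.log Y) * Real.log (Real.log (Real.log (Real.log Y))) /
    (Real.log (Real.log (Real.log Y))) ^ 2

open scoped Classical in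
theorem result (F : Finset (Polynomial ℝ))
    (hF : ∀ f ∈ F, f.natDegree ≠ 0 ∧ ∀ i : ℕ, 1 ≤ i → ∃ r : ℚ, (r : ℝ) = f.coeff i)
    (ε : ℝ) (hε : 0 < ε) :
    ∃ c : ℝ, 0 < c ∧ ∃ Y₀ : ℝ, ∀ Y : ℝ, Y₀ ≤ Y → ∀ M : ℝ,
      Y ^ (1 - ε) ≤ (((Ioc ⌊M⌋ ⌊M + Y⌋).filter (fun n : ℤ => ∀ f ∈ F, ∀ q : ℕ, q.Prime →
        c * R Y < |(q : ℝ) - f.eval (n : ℝ)|)).card : ℝ) := by
  obtain ⟨c, hc, Y₀, h⟩ := Pool.Agent.Y670.RP.ratF Pool.Agent.Y125.RP.mpl F hF ε hε
  exact ⟨c, hc, Y₀, fun Y hY M => h Y hY M⟩

end Pool.Agent.Results.MP_711652_nt.AllPolynomialValues
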