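import Pool.Agent.Y831.RC9.Prim

set_option autoImplicit false

/-!
# Long gaps shortly after almost all primes, explicitly and uniformly

For `c < 1/4` and every `K` above a constant, for all but `ε X / log X` of the primes `p ≤ X` the
interval `(p, p + K log X]` contains `c log X min (log log K) (log log X / 8)` consecutive integers
with a prime factor at most `X^δ`.

Method.  The same statement for almost all integers `n` (second moment of the covering-sieve weights
of two windows, libraries `Y831/RC5` to `Y831/RC8`) is carried over to the primes: all integers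
`n` in `[p, p + H]` behind a bad prime `p` are bad, and the primes behind the bad integers are
counted with the Cauchy-Schwarz inequality and the second moment of the primes in windows of length
`H`, uniformly in `H` (upper bound sieve for prime pairs, library `H357R2/SI` of the starting files).
-/

namespace Pool.Agent.Results.MP_711652_nt.LongGapsAfterAlmostAllPrimes

/-- The interval `(n, n + H]` contains a block `a + 1, …, a + ⌊F⌋` of consecutive integers each of
which has a prime factor at most `y`. -/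
def HasRun (F y H : ℝ) (n : ℤ) : Prop :=
  ∃ a : ℤ, n ≤ a ∧ (a : ℝ) + F ≤ n + H ∧ ∀ k : ℕ, 1 ≤ k → (k : ℝ) ≤ F →
    ∃ p : ℕ, p.Prime ∧ (p : ℝ) ≤ y ∧ (p : ℤ) ∣ a + k

theorem result (c δ ε : ℝ) (hc : 0 < c) (hc4 : c < 1 / 4) (hδ : 0 < δ) (hε : 0 < ε) :
    ∃ K₀ X₀ : ℝ, ∀ X : ℝ, X₀ ≤ X → ∀ K : ℝ, K₀ ≤ K →
      ({p : ℕ | p.Prime ∧ (p : ℝ) ≤ X ∧
        ¬ HasRun (c * (Real.log X * min (Real.log (Real.log K)) (Real.log (Real.log X) / 8)))
          (X ^ δ) (K * Real.log X) p}.ncard : ℝ) ≤ ε * (X / Real.log X) := by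
  classical
  obtain ⟨T₀, X₀, h⟩ := Pool.Agent.Y831.RC.prim10 c δ ε hc hc4 hδ hε
  refine ⟨Real.exp T₀, max X₀ 0, fun X hX K hK => ?_⟩
  have hX0 : X₀ ≤ X := (le_max_left _ _).trans hX
  have hXn : 0 ≤ X := (le_max_right _ _).trans hX
  have hK0 : 0 < K := (Real.exp_pos T₀).trans_le hK
  have hT₀ : T₀ ≤ Real.log K := by rw [Real.le_log_iff_exp_le hK0]; exact hK
  have h2 := h X hX0 (Real.log K) hT₀
  rw [Real.exp_log hK0] at h2
  have h3 : {p : ℕ | p.Prime ∧ (p : ℝ) ≤ X ∧
      ¬ HasRun (c * (Real.log X * min (Real.log (Real.log K)) (Real.log (Real.log X) / 8)))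
        (X ^ δ) (K * Real.log X) p} =
      (((Finset.range (⌊X⌋₊ + 1)).filter (fun p : ℕ => p.Prime ∧ ¬ Pool.Agent.Y831.RC.LongRun
        (c * (Real.log X * min (Real.log (Real.log K)) (Real.log (Real.log X) / 8))) (X ^ δ)
          (K * Real.log X) p) : Finset ℕ) : Set ℕ) := by
    ext p
    rw [Set.mem_ofPred_eq, Finset.mem_coe, Finset.mem_filter, Finset.mem_range, Nat.lt_succ_iff,
      Nat.le_floor_iff hXn]
    constructor
    · rintro ⟨h1, h2, h3⟩
      exact ⟨h2, h1, h3⟩
    · rintro ⟨h1, h2, h3⟩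
      exact ⟨h2, h1, h3⟩
  rw [h3, Set.ncard_coe_finset]
  exact h2

end Pool.Agent.Results.MP_711652_nt.LongGapsAfterAlmostAllPrimes
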