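import Pool.Agent.Y844.PT.Inst

/-!
# Primes at a distance of at most a power of the logarithm from many points of the translates of arbitrary sets
by palindromes and by random integers with mirror-dependent digits

Definitions used, from `Pool.Agent.TH872.Transfer`: `IsPalindrome b k v`: `v` is a palindrome with exactly `k`
digits in base `b`; `num b k E`: the number of the palindromes with `k` digits in base `b` which have the
property `E`; `value b k κ c d z`: the integer `c + κ v`, where `v` has the digits `(d i).1` and `(d i).2` at the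
position `i` and at the mirror position `k - 1 - i`, `i < k / 2`, and, if `k` is odd, the digit `z` in the middle;
`Pairs b k η w`: the numbers `w i a` are distributions of pairs `a` of digits, and for `i ≥ 1` two independent
copies of the pair differ in BOTH digits with a probability of at least `η`; `Prob b k w u E`: the probability
of `E` if the pairs `d i` and the digit `z` are chosen independently with the distributions `w i` and `u`.
-/

set_option autoImplicit false

namespace Pool.Agent.Results.MP_711652_nt.PalindromicTranslates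

open Finset
open Pool.Agent.TH872.Tr (IsPalindrome num value Prob Pairs)

/-- The number of the primes in `(n, n + y]`. -/
def primesIn (n y : ℕ) : ℕ := ((Ioc n (n + y)).filter Nat.Prime).card

open Classical in
/-- With `X = b ^ k`: the translate `A + n` has good points: for all integers `y` with `k ^ K ≤ y ≤ B X` the average of
`primesIn (a + n) y` over the `a ∈ A` differs from `y / log X` by at most `ε y / log X`, and at least
`(1 / 4 - ε) |A|` elements `a` of `A` have at least `(ε / 4) y / log X` primes in `(a + n, a + n + y]`. -/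
noncomputable def Good (ε : ℝ) (K b B k : ℕ) (A : Finset ℕ) (n : ℕ) : Prop :=
  ∀ y : ℕ, (k : ℝ) ^ K ≤ y → y ≤ B * b ^ k →
    |(∑ a ∈ A, (primesIn (a + n) y : ℝ)) * Real.log ((b ^ k : ℕ) : ℝ) - A.card * y| ≤ ε * (A.card * y) ∧
    (1 / 4 - ε) * A.card ≤ ((A.filter fun a => ε / 4 * y ≤ (primesIn (a + n) y : ℝ) * Real.log ((b ^ k : ℕ) : ℝ)).card : ℝ)

lemma good_iff (ε : ℝ) (K b B k : ℕ) (A : Finset ℕ) (n : ℕ) :
    Good ε K b B k A n ↔ Pool.Agent.Y844.PT.GoodT ε K b B k A n := by
  unfold Good Pool.Agent.Y844.PT.GoodT primesIn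
  constructor
  · intro h y hy1 hy2
    obtain ⟨h1, h2⟩ := h y hy1 hy2
    refine ⟨h1, ?_⟩
    convert h2 using 4
  · intro h y hy1 hy2
    obtain ⟨h1, h2⟩ := h y hy1 hy2
    refine ⟨h1, ?_⟩
    convert h2 using 4

/-- Let `b ≥ 2`, `κ ≠ 0`, `B`, `C`, `U`, `η > 0` and `0 < ε ≤ 1 / 4` be fixed. There is a `K` such that for every sufficiently
large `k`, with `X = b ^ k`, every integer `|c| ≤ B X` and every set `A` of at least `X / k ^ C` integers in
`[1, B X]` the following holds for `n = c + κ v`: if `n` is positive, then for all `y` with `k ^ K ≤ y ≤ B X` the average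
over `a ∈ A` of the number of the primes in `(a + n, a + n + y]` differs from `y / log X` by at most `ε y / log X`, and
at least `(1 / 4 - ε) |A|` elements `a` of `A` have at least `(ε / 4) y / log X` primes in `(a + n, a + n + y]`,

* for a random `v` with `k` digits in base `b`, the digits at the mirror positions `i` and `k - 1 - i` forming
  independent pairs with arbitrary distributions `w i` for which, for `i ≥ 1`, both digits of two independent copies differ
  with a probability of at least `η`: with a probability of at least `1 - 1 / k ^ U`;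
* for all palindromes `v` with `k` digits in base `b` with the exception of a proportion of at most `1 / k ^ U`
  of them. -/
theorem result (b B C U : ℕ) (hb : 2 ≤ b) (κ : ℤ) (hκ : κ ≠ 0) (η : ℝ) (hη : 0 < η) (ε : ℝ) (hε : 0 < ε) (hε1 : ε ≤ 1 / 4) :
    ∃ K k₀ : ℕ, ∀ k : ℕ, k₀ ≤ k → ∀ c : ℤ, |c| ≤ B * (b : ℤ) ^ k →
      ∀ A : Finset ℕ, A ⊆ Icc 1 (B * b ^ k) → ((b ^ k : ℕ) : ℝ) ≤ A.card * (k : ℝ) ^ C →
      (∀ (w : ℕ → ℕ × ℕ → ℝ) (u : ℕ → ℝ), Pairs b k η w → (∀ a, 0 ≤ u a) → ∑ a ∈ range b, u a = 1 →
        Prob b k w u (fun d z => 0 < value b k κ c d z ∧ ¬ Good ε K b B k A (value b k κ c d z).toNat) ≤ 1 / (k : ℝ) ^ U) ∧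
      (num b k (fun v => 0 < c + κ * v ∧ ¬ Good ε K b B k A (c + κ * v).toNat) : ℝ) ≤
        num b k (fun _ => True) / (k : ℝ) ^ U := by
  have hb0 : (0 : ℝ) < b := by exact_mod_cast (by omega : 0 < b)
  obtain ⟨K, hK⟩ := Pool.Agent.Y844.PT.pt_mir b B C U hb κ hκ (min η (1 / (b : ℝ) ^ 2)) (lt_min hη (by positivity)) ε hε hε1
  obtain ⟨k₀, h0⟩ := Pool.Agent.Y844.DS.transfer2 b B U hb κ _ η hK
  refine ⟨K, k₀, fun k hk c hc A hA hAk => ?_⟩
  exact h0 k hk c hc (fun y => 0 < y ∧ ¬ Good ε K b B k A y.toNat) ⟨A, hA, hAk, fun y hy => ⟨hy.1, fun hg =>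
    hy.2 ((good_iff ε K b B k A y.toNat).2 hg)⟩⟩

end Pool.Agent.Results.MP_711652_nt.PalindromicTranslates
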