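import Mathlib
import Pool.Agent.Y829.BT6

set_option autoImplicit false

/-!
# Nonnegative sieve weights cannot disprove polylogarithmic gaps

In the sieve model of the question (primes are replaced by the integers coprime to `M`, for instance `M` the product
of the primes up to `X`, and the position `n` is chosen with an arbitrary nonnegative sieve weight of level `Q`,
for instance `Q = X^1000`) gaps of length `U = (log X)^(2+ε)` do not occur: the window `n+1, ..., n+U` has at least
a constant times the expected number of integers coprime to `M`, on average over `n` and for all `n` but an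
exponentially small proportion, the average and the proportion being taken with respect to the weight.
All constructions of large gaps between primes (Westzynthius, Erdős, Rankin, Maynard, Ford-Green-Konyagin-Tao) choose `n`
in one residue class or with such a weight.

Design and proof: helper829. Uses the fundamental lemma and the linear sieve of the starting repository.
-/

open Finset

namespace Pool.Agent.Results.MP_711652_nt.SieveWeightBarrier

/-- `w` is a weight of level `Q`: a sum of functions with periods `1, 2, ..., Q` (for instance a linear combination of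
indicators of residue classes to moduli up to `Q`, a truncated divisor sum, or a Selberg or Maynard weight
`(∑_{d₁ ∣ n+h₁, ..., d_k ∣ n+h_k} λ(d₁, ..., d_k))²` with all `[d₁, ..., d_k, e₁, ..., e_k] ≤ Q`). -/
def HasLevel (Q : ℕ) (w : ℕ → ℝ) : Prop :=
  ∃ f : ℕ → ℕ → ℝ, (∀ d n, f d (n + d) = f d n) ∧ ∀ n, w n = ∑ d ∈ Icc 1 Q, f d n

/-- the number of `h ∈ [1, U]` such that `n + h` is coprime to `M` -/
def survivors (M U n : ℕ) : ℕ := ((Icc 1 U).filter (fun h => (n + h).Coprime M)).card

/-- For every `θ < 1/2` there are `c > 0` and `U₁` such that for all `U ≥ U₁`, all `Q` with `log Q ≤ U^θ`, all `M ≥ 1`,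
all common multiples `N` of `M` and `1, ..., Q` and all nonnegative weights `w` of level `Q`: the mean with respect to `w`
of the number of integers coprime to `M` in the window `n+1, ..., n+U` is at least `c U φ(M)/M`; and, if `log p ≤ U^θ` for
all primes `p` dividing `M`, the `n` with fewer than `c U φ(M)/M` such integers have, with respect to `w`, proportion
at most `exp(-U^θ)`. -/
theorem result (θ : ℝ) (h0 : 0 < θ) (h1 : θ < 1 / 2) : ∃ (c : ℝ) (U₁ : ℕ), 0 < c ∧
    ∀ (U Q M N : ℕ) (w : ℕ → ℝ), U₁ ≤ U → 1 ≤ Q → Real.log Q ≤ (U : ℝ) ^ θ → 0 < M → 0 < N → M ∣ N →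
    (∀ d ∈ Icc 1 Q, d ∣ N) → (∀ n, 0 ≤ w n) → HasLevel Q w →
      c * U * ((M.totient : ℝ) / M) * ∑ n ∈ range N, w n ≤ ∑ n ∈ range N, w n * (survivors M U n : ℝ) ∧
      ((∀ p, p.Prime → p ∣ M → Real.log p ≤ (U : ℝ) ^ θ) →
        ∑ n ∈ range N with (survivors M U n : ℝ) < c * U * ((M.totient : ℝ) / M), w n ≤
          Real.exp (-(U : ℝ) ^ θ) * ∑ n ∈ range N, w n) :=
  Pool.Agent.Y829.main θ h0 h1

end Pool.Agent.Results.MP_711652_nt.SieveWeightBarrier
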